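import Mathlib

set_option linter.unusedSectionVars false

/-!
# Edge weights that normalise a graph whose large-scale densities lie in `[p, P]`

Szemeredi's regularity lemma gives symmetric edge weights `w`, bounded between `1/(P+d)` and
`2/p`, such that the weighted graph has density `1` up to `e` on all pairs of subsets.
-/

open Finset Classical

namespace Pool.Agent.Helper36.SNReg

section basic

variable {α : Type} [Fintype α]

/-- The number of adjacent pairs in `A × B`. -/
noncomputable def ec (G : SimpleGraph α) (A B : Finset α) : ℝ :=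
  ∑ a ∈ A, ∑ b ∈ B, (if G.Adj a b then (1 : ℝ) else 0)

lemma ec_eq (G : SimpleGraph α) (A B : Finset α) :
    ec G A B = (#(G.interedges A B) : ℝ) := by
  unfold ec
  rw [SimpleGraph.interedges_def, Finset.card_filter, ← Finset.sum_product']
  push_cast
  rfl

lemma ec_nonneg (G : SimpleGraph α) (A B : Finset α) : 0 ≤ ec G A B := by
  rw [ec_eq]; positivity

lemma ec_le (G : SimpleGraph α) (A B : Finset α) : ec G A B ≤ #A * #B := by
  rw [ec_eq]
  exact_mod_cast G.card_interedges_le_mul A B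

lemma density_mul (G : SimpleGraph α) (A B : Finset α) :
    (G.edgeDensity A B : ℝ) * (#A * #B) = ec G A B := by
  rw [ec_eq, SimpleGraph.edgeDensity_def]
  by_cases hA : (#A : ℝ) = 0
  · have h := ec_le G A B
    rw [ec_eq] at h
    have h0 : (#(G.interedges A B) : ℝ) = 0 :=
      le_antisymm (by rw [hA, zero_mul] at h; exact h) (by positivity)
    rw [hA, h0]; simp
  by_cases hB : (#B : ℝ) = 0
  · have h := ec_le G A B
    rw [ec_eq] at h
    have h0 : (#(G.interedges A B) : ℝ) = 0 :=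
      le_antisymm (by rw [hB, mul_zero] at h; exact h) (by positivity)
    rw [hB, h0]; simp
  push_cast
  field_simp

lemma density_nonneg (G : SimpleGraph α) (A B : Finset α) : (0 : ℝ) ≤ (G.edgeDensity A B : ℝ) := by
  exact_mod_cast G.edgeDensity_nonneg A B

lemma density_le_one (G : SimpleGraph α) (A B : Finset α) : (G.edgeDensity A B : ℝ) ≤ 1 := by
  exact_mod_cast G.edgeDensity_le_one A B

lemma uniform_pair {G : SimpleGraph α} {ε : ℝ} (hε : 0 ≤ ε) {U W : Finset α}
    (h : G.IsUniform ε U W) {A B : Finset α} (hA : A ⊆ U) (hB : B ⊆ W) :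
    |ec G A B - (G.edgeDensity U W : ℝ) * (#A * #B)| ≤ ε * (#U * #W) := by
  have hAU : (#A : ℝ) ≤ #U := by exact_mod_cast card_le_card hA
  have hBW : (#B : ℝ) ≤ #W := by exact_mod_cast card_le_card hB
  have hA0 : (0 : ℝ) ≤ #A := by positivity
  have hB0 : (0 : ℝ) ≤ #B := by positivity
  have hd0 := density_nonneg G U W
  have hd1 := density_le_one G U W
  by_cases h1 : (#U : ℝ) * ε ≤ #A ∧ (#W : ℝ) * ε ≤ #B
  · have h2 := h hA hB h1.1 h1.2
    rw [← density_mul G A B, ← sub_mul, abs_mul, abs_of_nonneg (by positivity : (0 : ℝ) ≤ #A * #B)]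
    calc |(G.edgeDensity A B : ℝ) - (G.edgeDensity U W : ℝ)| * (#A * #B)
        ≤ ε * (#A * #B) := mul_le_mul_of_nonneg_right h2.le (by positivity)
      _ ≤ ε * (#U * #W) := by gcongr
  · have h3 : (#A : ℝ) * #B ≤ ε * (#U * #W) := by
      rw [not_and_or, not_le, not_le] at h1
      rcases h1 with h1 | h1
      · calc (#A : ℝ) * #B ≤ (#U * ε) * #W := by gcongr
          _ = ε * (#U * #W) := by ring
      · calc (#A : ℝ) * #B ≤ #U * (#W * ε) := by gcongr
          _ = ε * (#U * #W) := by ring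
    have h4 := ec_nonneg G A B
    have h5 := ec_le G A B
    have h6 : (G.edgeDensity U W : ℝ) * (#A * #B) ≤ 1 * (#A * #B) := by gcongr
    have h7 : 0 ≤ (G.edgeDensity U W : ℝ) * (#A * #B) := by positivity
    rw [abs_le]
    constructor <;> linarith

end basic

/-- The inverse of a clamped density. -/
noncomputable def inv (lo hi x : ℝ) : ℝ := 1 / max lo (min x hi)

lemma inv_le {lo hi : ℝ} (hlo : 0 < lo) (x : ℝ) : inv lo hi x ≤ 1 / lo :=
  one_div_le_one_div_of_le hlo (le_max_left _ _)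

lemma le_inv {lo hi : ℝ} (hlo : 0 < lo) (h : lo ≤ hi) (x : ℝ) : 1 / hi ≤ inv lo hi x :=
  one_div_le_one_div_of_le (lt_of_lt_of_le hlo (le_max_left _ _))
    (max_le h (min_le_right _ _))

lemma inv_nonneg' {lo hi : ℝ} (hlo : 0 < lo) (x : ℝ) : 0 ≤ inv lo hi x :=
  div_nonneg zero_le_one (le_trans hlo.le (le_max_left _ _))

lemma inv_mul_self {lo hi x : ℝ} (hlo : 0 < lo) (h1 : lo ≤ x) (h2 : x ≤ hi) :
    inv lo hi x * x = 1 := by
  unfold inv
  rw [min_eq_left h2, max_eq_right h1]
  have : x ≠ 0 := (lt_of_lt_of_le hlo h1).ne'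
  field_simp

/-- The case `S = univ`. -/
theorem normalise_univ (p P d e : ℝ) (hp : 0 < p) (hpP : p ≤ P) (hd : 0 < d) (he : 0 < e) :
    ∃ (M0 : ℕ) (e0 : ℝ), 0 < e0 ∧ ∀ (α : Type) [Fintype α] (G : SimpleGraph α),
      M0 ≤ Fintype.card α →
      (∀ A B : Finset α, p * A.card * B.card - e0 * (Fintype.card α : ℝ) ^ 2 ≤ ec G A B ∧
        ec G A B ≤ P * A.card * B.card + e0 * (Fintype.card α : ℝ) ^ 2) →
      ∃ w : α → α → ℝ, (∀ u v, w u v = w v u) ∧
        (∀ u v, 1 / (P + d) ≤ w u v ∧ w u v ≤ 2 / p) ∧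
        ∀ A B : Finset α, |∑ a ∈ A, ∑ b ∈ B, (w a b * (if G.Adj a b then (1 : ℝ) else 0) - 1)| ≤
          e * (Fintype.card α : ℝ) ^ 2 := by
  set K : ℝ := 2 / p + 1 with hK
  have hK0 : 0 < K := by positivity
  set ε : ℝ := e / (10 * K) with hε
  have hε0 : 0 < ε := by positivity
  obtain ⟨l, hl⟩ := exists_nat_ge (8 * K / e + 1)
  have hl1 : 8 * K / e ≤ l := by linarith
  have hl0 : (0 : ℝ) < l := by
    have : 0 < 8 * K / e := by positivity
    linarith
  set M : ℕ := SzemerediRegularity.bound ε l with hM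
  have hM0 : (0 : ℝ) < M := Nat.cast_pos.2 (SzemerediRegularity.bound_pos ε l)
  refine ⟨l, min p d / (8 * (M : ℝ) ^ 2), by positivity, ?_⟩
  intro α _ G hcard hden
  obtain ⟨N, hN⟩ : ∃ N : ℝ, N = (Fintype.card α : ℝ) := ⟨_, rfl⟩
  rw [← hN] at hden ⊢
  obtain ⟨Q, hQe, hQl, hQM, hQu⟩ := szemeredi_regularity G hε0 hcard
  have hlN : (l : ℝ) ≤ N := by rw [hN]; exact Nat.cast_le.2 hcard
  have hN0 : 0 < N := lt_of_lt_of_le hl0 hlN
  set k : ℕ := #Q.parts with hk
  have hkl : (l : ℝ) ≤ k := Nat.cast_le.2 hQl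
  have hk0 : (0 : ℝ) < k := lt_of_lt_of_le hl0 hkl
  have hkM : (k : ℝ) ≤ M := Nat.cast_le.2 hQM
  have hkN : (k : ℝ) ≤ N := by
    have h := Q.card_parts_le_card
    rw [Finset.card_univ] at h
    rw [hN]
    exact Nat.cast_le.2 h
  -- sizes of the parts
  have hup : ∀ U ∈ Q.parts, (#U : ℝ) ≤ 2 * N / k := by
    intro U hU
    have h := hQe.card_part_le_average_add_one hU
    rw [Finset.card_univ] at h
    have h1 : (#U : ℝ) ≤ ((Fintype.card α / k : ℕ) : ℝ) + 1 := by exact_mod_cast h
    have h2 : ((Fintype.card α / k : ℕ) : ℝ) ≤ N / k := by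
      rw [hN]
      exact Nat.cast_div_le
    have h3 : (1 : ℝ) ≤ N / k := by rw [le_div_iff₀ hk0]; linarith
    have : 2 * N / k = N / k + N / k := by ring
    linarith
  have hlow : ∀ U ∈ Q.parts, N / (2 * k) ≤ (#U : ℝ) := by
    intro U hU
    have h := hQe.average_le_card_part hU
    rw [Finset.card_univ] at h
    have h1 : ((Fintype.card α / k : ℕ) : ℝ) ≤ (#U : ℝ) := by exact_mod_cast h
    have hkpos : 0 < k := by exact_mod_cast hk0
    have h2 : Fintype.card α < k * (Fintype.card α / k + 1) := by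
      have := Nat.lt_mul_div_succ (Fintype.card α) hkpos
      simpa [Nat.succ_eq_add_one] using this
    have h3 : N < k * (((Fintype.card α / k : ℕ) : ℝ) + 1) := by
      rw [hN]; exact_mod_cast h2
    have h4 : (1 : ℝ) ≤ ((Fintype.card α / k : ℕ) : ℝ) := by
      have : 1 ≤ Fintype.card α / k := by
        rw [Nat.one_le_div_iff hkpos]
        have h := Q.card_parts_le_card
        rw [Finset.card_univ] at h
        exact h
      exact_mod_cast this
    rw [div_le_iff₀ (by positivity)]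
    nlinarith
  -- densities
  have hdens : ∀ U ∈ Q.parts, ∀ W ∈ Q.parts,
      p / 2 ≤ (G.edgeDensity U W : ℝ) ∧ (G.edgeDensity U W : ℝ) ≤ P + d := by
    intro U hU W hW
    have hUl := hlow U hU
    have hWl := hlow W hW
    have hNk : 0 < N / (2 * k) := by positivity
    have hU0 : (0 : ℝ) < #U := lt_of_lt_of_le hNk hUl
    have hW0 : (0 : ℝ) < #W := lt_of_lt_of_le hNk hWl
    have hprod : N ^ 2 / (4 * (M : ℝ) ^ 2) ≤ #U * #W := by
      calc N ^ 2 / (4 * (M : ℝ) ^ 2) ≤ N ^ 2 / (4 * (k : ℝ) ^ 2) := by gcongr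
        _ = (N / (2 * k)) * (N / (2 * k)) := by ring
        _ ≤ #U * #W := by gcongr
    obtain ⟨h1, h2⟩ := hden U W
    rw [← density_mul G U W] at h1 h2
    have hmin1 : min p d ≤ p := min_le_left _ _
    have hmin2 : min p d ≤ d := min_le_right _ _
    have h3 : min p d / (8 * (M : ℝ) ^ 2) * N ^ 2 ≤ (p / 2) * (#U * #W) := by
      calc min p d / (8 * (M : ℝ) ^ 2) * N ^ 2 = (min p d / 2) * (N ^ 2 / (4 * (M : ℝ) ^ 2)) := by
            ring
        _ ≤ (p / 2) * (#U * #W) := by gcongr
    have h4 : min p d / (8 * (M : ℝ) ^ 2) * N ^ 2 ≤ d * (#U * #W) := by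
      calc min p d / (8 * (M : ℝ) ^ 2) * N ^ 2 = (min p d / 2) * (N ^ 2 / (4 * (M : ℝ) ^ 2)) := by
            ring
        _ ≤ d * (#U * #W) := by
            have : min p d / 2 ≤ d := by linarith
            gcongr
    have hUW : (0 : ℝ) < #U * #W := by positivity
    constructor
    · by_contra hcon
      push Not at hcon
      have := mul_lt_mul_of_pos_right hcon hUW
      nlinarith
    · by_contra hcon
      push Not at hcon
      have := mul_lt_mul_of_pos_right hcon hUW
      nlinarith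
  -- the weights
  have hlohi : p / 2 ≤ P + d := by linarith
  have hlo0 : 0 < p / 2 := by positivity
  let f : ℝ → ℝ := inv (p / 2) (P + d)
  have hf0 : ∀ x, 0 ≤ f x := fun x => inv_nonneg' hlo0 x
  have hf1 : ∀ x, f x ≤ 2 / p := fun x => by
    have := inv_le (hi := P + d) hlo0 x
    have h2 : 1 / (p / 2) = 2 / p := by field_simp
    rw [h2] at this
    exact this
  refine ⟨fun a b => f (G.edgeDensity (Q.part a) (Q.part b) : ℝ), ?_, ?_, ?_⟩
  · intro u v
    simp only [G.edgeDensity_comm (Q.part u) (Q.part v)]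
  · intro u v
    exact ⟨le_inv hlo0 hlohi _, hf1 _⟩
  intro A B
  -- splitting the sum
  have hpart : ∀ a : α, Q.part a ∈ Q.parts := fun a => Q.part_mem.2 (mem_univ a)
  have hsplit : ∑ a ∈ A, ∑ b ∈ B, (f (G.edgeDensity (Q.part a) (Q.part b) : ℝ) *
        (if G.Adj a b then (1 : ℝ) else 0) - 1) =
      ∑ x ∈ Q.parts ×ˢ Q.parts,
        (f (G.edgeDensity x.1 x.2 : ℝ) * ec G (A.filter fun a => Q.part a = x.1)
          (B.filter fun b => Q.part b = x.2) -
        #(A.filter fun a => Q.part a = x.1) * #(B.filter fun b => Q.part b = x.2)) := by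
    rw [Finset.sum_product,
      ← Finset.sum_fiberwise_of_maps_to (s := A) (t := Q.parts) (g := fun a => Q.part a)
        (fun a _ => hpart a)]
    refine Finset.sum_congr rfl fun U hU => ?_
    have h1 : ∀ a ∈ A.filter (fun a => Q.part a = U),
        ∑ b ∈ B, (f (G.edgeDensity (Q.part a) (Q.part b) : ℝ) *
          (if G.Adj a b then (1 : ℝ) else 0) - 1) =
        ∑ W ∈ Q.parts, ∑ b ∈ B.filter (fun b => Q.part b = W),
          (f (G.edgeDensity U W : ℝ) * (if G.Adj a b then (1 : ℝ) else 0) - 1) := by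
      intro a ha
      rw [← Finset.sum_fiberwise_of_maps_to (s := B) (t := Q.parts) (g := fun b => Q.part b)
        (fun b _ => hpart b)]
      refine Finset.sum_congr rfl fun W hW => ?_
      refine Finset.sum_congr rfl fun b hb => ?_
      rw [(Finset.mem_filter.1 ha).2, (Finset.mem_filter.1 hb).2]
    rw [Finset.sum_congr rfl h1, Finset.sum_comm]
    refine Finset.sum_congr rfl fun W hW => ?_
    simp only [Finset.sum_sub_distrib, ← Finset.mul_sum, Finset.sum_const, nsmul_eq_mul, mul_one]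
    rfl
  rw [hsplit]
  have hsub : ∀ (C : Finset α) (U : Finset α), C.filter (fun a => Q.part a = U) ⊆ U := by
    intro C U a ha
    have := (Finset.mem_filter.1 ha).2
    rw [← this]
    exact Q.mem_part (mem_univ a)
  -- bound for one pair
  have hpair : ∀ x ∈ Q.parts ×ˢ Q.parts,
      |f (G.edgeDensity x.1 x.2 : ℝ) * ec G (A.filter fun a => Q.part a = x.1)
          (B.filter fun b => Q.part b = x.2) -
        #(A.filter fun a => Q.part a = x.1) * #(B.filter fun b => Q.part b = x.2)| ≤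
      K * ε * (#x.1 * #x.2) +
        ((if x ∈ Q.nonUniforms G ε then K * (#x.1 * #x.2 : ℝ) else 0) +
          (if x.1 = x.2 then K * (#x.1 * #x.2 : ℝ) else 0)) := by
    rintro ⟨U, W⟩ hx
    obtain ⟨hU, hW⟩ := Finset.mem_product.1 hx
    simp only at hU hW ⊢
    set A' := A.filter fun a => Q.part a = U
    set B' := B.filter fun b => Q.part b = W
    have hA' : A' ⊆ U := hsub A U
    have hB' : B' ⊆ W := hsub B W
    have hAU : (#A' : ℝ) ≤ #U := by exact_mod_cast card_le_card hA'
    have hBW : (#B' : ℝ) ≤ #W := by exact_mod_cast card_le_card hB'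
    have hUW : (0 : ℝ) ≤ #U * #W := by positivity
    have htriv : |f (G.edgeDensity U W : ℝ) * ec G A' B' - #A' * #B'| ≤ K * (#U * #W) := by
      have h1 := ec_nonneg G A' B'
      have h2 := ec_le G A' B'
      have h3 : (#A' : ℝ) * #B' ≤ #U * #W := by gcongr
      have h4 : f (G.edgeDensity U W : ℝ) * ec G A' B' ≤ 2 / p * (#U * #W) := by
        have := hf1 (G.edgeDensity U W : ℝ)
        have := hf0 (G.edgeDensity U W : ℝ)
        calc f (G.edgeDensity U W : ℝ) * ec G A' B' ≤ 2 / p * (#A' * #B') := by gcongr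
          _ ≤ 2 / p * (#U * #W) := by gcongr
      have h5 : 0 ≤ f (G.edgeDensity U W : ℝ) * ec G A' B' := mul_nonneg (hf0 _) h1
      have h6 : (0 : ℝ) ≤ #A' * #B' := by positivity
      have h7 : 0 ≤ 2 / p * (#U * #W : ℝ) := by positivity
      rw [abs_le, hK]
      constructor <;> nlinarith
    by_cases hd1 : U = W
    · rw [if_pos hd1]
      have h1 : 0 ≤ K * ε * (#U * #W : ℝ) := by positivity
      have h2 : (0 : ℝ) ≤ (if (U, W) ∈ Q.nonUniforms G ε then K * (#U * #W : ℝ) else 0) := by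
        split_ifs
        · positivity
        · exact le_refl _
      linarith
    by_cases hd2 : G.IsUniform ε U W
    · have hun := uniform_pair hε0.le hd2 hA' hB'
      have h1 : f (G.edgeDensity U W : ℝ) * ec G A' B' - #A' * #B' =
          f (G.edgeDensity U W : ℝ) * (ec G A' B' - (G.edgeDensity U W : ℝ) * (#A' * #B')) := by
        have := inv_mul_self hlo0 (hdens U hU W hW).1 (hdens U hU W hW).2
        change f (G.edgeDensity U W : ℝ) * (G.edgeDensity U W : ℝ) = 1 at this
        rw [mul_sub, ← mul_assoc, this, one_mul]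
      have h2 : |f (G.edgeDensity U W : ℝ) * ec G A' B' - #A' * #B'| ≤ K * ε * (#U * #W) := by
        rw [h1, abs_mul, abs_of_nonneg (hf0 _)]
        calc f (G.edgeDensity U W : ℝ) * |ec G A' B' - (G.edgeDensity U W : ℝ) * (#A' * #B')|
            ≤ (2 / p) * (ε * (#U * #W)) := by
              gcongr
              exact hf1 _
          _ ≤ K * (ε * (#U * #W)) := by
              have : 2 / p ≤ K := by rw [hK]; linarith
              gcongr
          _ = K * ε * (#U * #W) := by ring
      have h3 : (0 : ℝ) ≤ (if (U, W) ∈ Q.nonUniforms G ε then K * (#U * #W : ℝ) else 0) := by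
        split_ifs
        · positivity
        · exact le_refl _
      rw [if_neg hd1]
      linarith
    · have hmem : (U, W) ∈ Q.nonUniforms G ε := by
        rw [Finpartition.mk_mem_nonUniforms]
        exact ⟨hU, hW, hd1, hd2⟩
      rw [if_pos hmem, if_neg hd1]
      have h1 : 0 ≤ K * ε * (#U * #W : ℝ) := by positivity
      linarith
  have hsumU : ∑ U ∈ Q.parts, (#U : ℝ) = N := by
    have := Q.sum_card_parts
    rw [Finset.card_univ] at this
    rw [hN, ← this]
    push_cast
    rfl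
  have hAne : (univ : Finset α).Nonempty := by
    rw [← Finset.card_pos, Finset.card_univ]
    rw [hN] at hN0
    exact Nat.cast_pos.1 hN0
  -- the three sums
  have hs1 : ∑ x ∈ Q.parts ×ˢ Q.parts, K * ε * (#x.1 * #x.2 : ℝ) = K * ε * N ^ 2 := by
    rw [← Finset.mul_sum, Finset.sum_product]
    simp only [← Finset.mul_sum]
    rw [← Finset.sum_mul, hsumU]
    ring
  have hs2 : ∑ x ∈ Q.parts ×ˢ Q.parts,
      (if x ∈ Q.nonUniforms G ε then K * (#x.1 * #x.2 : ℝ) else 0) ≤ 4 * K * ε * N ^ 2 := by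
    rw [← Finset.sum_filter]
    have h1 : (Q.parts ×ˢ Q.parts).filter (fun x => x ∈ Q.nonUniforms G ε) =
        Q.nonUniforms G ε := by
      ext ⟨U, W⟩
      simp only [Finset.mem_filter, Finset.mem_product, Finpartition.mk_mem_nonUniforms]
      tauto
    rw [h1, ← Finset.mul_sum]
    have h2 := (hQe.sum_nonUniforms_lt' hAne hε0 hQu).le
    rw [Finset.card_univ, ← hN] at h2
    have h3 : ε * (N + (#Q.parts : ℝ)) ^ 2 ≤ ε * (N + N) ^ 2 := by
      gcongr
    calc K * ∑ i ∈ Q.nonUniforms G ε, (#i.1 * #i.2 : ℝ) ≤ K * (ε * (N + N) ^ 2) := by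
          gcongr
          exact le_trans h2 h3
      _ = 4 * K * ε * N ^ 2 := by ring
  have hs3 : ∑ x ∈ Q.parts ×ˢ Q.parts, (if x.1 = x.2 then K * (#x.1 * #x.2 : ℝ) else 0) ≤
      K * (2 * N / k) * N := by
    rw [Finset.sum_product]
    have h1 : ∀ U ∈ Q.parts, ∑ W ∈ Q.parts, (if U = W then K * (#U * #W : ℝ) else 0) =
        K * (#U * #U : ℝ) := by
      intro U hU
      rw [Finset.sum_ite_eq]
      simp [hU]
    rw [Finset.sum_congr rfl h1]
    calc ∑ U ∈ Q.parts, K * (#U * #U : ℝ) ≤ ∑ U ∈ Q.parts, K * (2 * N / k) * #U := by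
          refine Finset.sum_le_sum fun U hU => ?_
          have := hup U hU
          calc K * (#U * #U : ℝ) = K * #U * #U := by ring
            _ ≤ K * (2 * N / k) * #U := by gcongr
      _ = K * (2 * N / k) * N := by rw [← Finset.mul_sum, hsumU]
  calc |∑ x ∈ Q.parts ×ˢ Q.parts,
        (f (G.edgeDensity x.1 x.2 : ℝ) * ec G (A.filter fun a => Q.part a = x.1)
          (B.filter fun b => Q.part b = x.2) -
        #(A.filter fun a => Q.part a = x.1) * #(B.filter fun b => Q.part b = x.2))|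
      ≤ ∑ x ∈ Q.parts ×ˢ Q.parts,
        |f (G.edgeDensity x.1 x.2 : ℝ) * ec G (A.filter fun a => Q.part a = x.1)
          (B.filter fun b => Q.part b = x.2) -
        #(A.filter fun a => Q.part a = x.1) * #(B.filter fun b => Q.part b = x.2)| :=
        Finset.abs_sum_le_sum_abs _ _
    _ ≤ ∑ x ∈ Q.parts ×ˢ Q.parts, (K * ε * (#x.1 * #x.2) +
        ((if x ∈ Q.nonUniforms G ε then K * (#x.1 * #x.2 : ℝ) else 0) +
          (if x.1 = x.2 then K * (#x.1 * #x.2 : ℝ) else 0))) := Finset.sum_le_sum hpair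
    _ ≤ K * ε * N ^ 2 + (4 * K * ε * N ^ 2 + K * (2 * N / k) * N) := by
        rw [Finset.sum_add_distrib, Finset.sum_add_distrib, hs1]
        gcongr
    _ ≤ e * N ^ 2 := by
        have h1 : K * ε = e / 10 := by rw [hε]; field_simp
        have h2 : K * (2 * N / k) * N ≤ e / 4 * N ^ 2 := by
          have h3 : K / k ≤ e / 8 := by
            rw [div_le_iff₀ hk0]
            have h4 : 8 * K ≤ l * e := by
              rw [div_le_iff₀ he] at hl1
              exact hl1
            nlinarith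
          calc K * (2 * N / k) * N = (K / k) * (2 * N ^ 2) := by ring
            _ ≤ (e / 8) * (2 * N ^ 2) := by gcongr
            _ = e / 4 * N ^ 2 := by ring
        have h5 : 4 * K * ε * N ^ 2 = 4 * (e / 10) * N ^ 2 := by rw [← h1]; ring
        rw [h5, h1]
        nlinarith [sq_nonneg N, mul_pos he (pow_pos hN0 2)]

/-- A graph on a large set `S` whose large-scale densities lie in `[p, P]` becomes, with suitable
bounded symmetric edge weights, a weighted graph of density `1`. -/
theorem normalise (p P d e : ℝ) (hp : 0 < p) (hpP : p ≤ P) (hd : 0 < d) (he : 0 < e) :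
    ∃ (M0 : ℕ) (e0 : ℝ), 0 < e0 ∧ ∀ (V : Type) [Fintype V] [DecidableEq V] (G : SimpleGraph V)
      (S : Finset V), M0 ≤ S.card →
      (∀ A B : Finset V, A ⊆ S → B ⊆ S →
        p * A.card * B.card - e0 * (S.card : ℝ) ^ 2 ≤
            ∑ a ∈ A, ∑ b ∈ B, (if G.Adj a b then (1 : ℝ) else 0) ∧
        ∑ a ∈ A, ∑ b ∈ B, (if G.Adj a b then (1 : ℝ) else 0) ≤
            P * A.card * B.card + e0 * (S.card : ℝ) ^ 2) →
      ∃ w : V → V → ℝ, (∀ u v, w u v = w v u) ∧
        (∀ u v, 1 / (P + d) ≤ w u v ∧ w u v ≤ 2 / p) ∧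
        ∀ A B : Finset V, A ⊆ S → B ⊆ S →
          |∑ a ∈ A, ∑ b ∈ B, (w a b * (if G.Adj a b then (1 : ℝ) else 0) - 1)| ≤
            e * (S.card : ℝ) ^ 2 := by
  obtain ⟨M0, e0, he0, H⟩ := normalise_univ p P d e hp hpP hd he
  refine ⟨M0, e0, he0, ?_⟩
  intro V _ _ G S hS hG
  have hcard : Fintype.card {x // x ∈ S} = S.card := by simp
  let G' : SimpleGraph {x // x ∈ S} := G.comap Subtype.val
  have hec : ∀ A B : Finset {x // x ∈ S}, ec G' A B =
      ∑ a ∈ A.map (Function.Embedding.subtype _), ∑ b ∈ B.map (Function.Embedding.subtype _),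
        (if G.Adj a b then (1 : ℝ) else 0) := by
    intro A B
    unfold ec
    rw [Finset.sum_map]
    refine Finset.sum_congr rfl fun a _ => ?_
    rw [Finset.sum_map]
    rfl
  have hmapsub : ∀ A : Finset {x // x ∈ S}, A.map (Function.Embedding.subtype _) ⊆ S := by
    intro A x hx
    obtain ⟨a, _, rfl⟩ := Finset.mem_map.1 hx
    exact a.2
  obtain ⟨w, hsym, hbd, hsum⟩ := H {x // x ∈ S} G' (by rw [hcard]; exact hS) (by
    intro A B
    have h := hG (A.map (Function.Embedding.subtype _)) (B.map (Function.Embedding.subtype _))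
      (hmapsub A) (hmapsub B)
    rw [Finset.card_map, Finset.card_map, ← hec A B] at h
    rw [hcard]
    exact h)
  refine ⟨fun u v => if h : u ∈ S ∧ v ∈ S then w ⟨u, h.1⟩ ⟨v, h.2⟩ else 2 / p, ?_, ?_, ?_⟩
  · intro u v
    by_cases h : u ∈ S ∧ v ∈ S
    · have h' : v ∈ S ∧ u ∈ S := ⟨h.2, h.1⟩
      beta_reduce
      rw [dif_pos h, dif_pos h']
      exact hsym _ _
    · have h' : ¬ (v ∈ S ∧ u ∈ S) := fun h2 => h ⟨h2.2, h2.1⟩
      beta_reduce
      rw [dif_neg h, dif_neg h']
  · intro u v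
    by_cases h : u ∈ S ∧ v ∈ S
    · beta_reduce
      rw [dif_pos h]
      exact hbd _ _
    · beta_reduce
      rw [dif_neg h]
      refine ⟨?_, le_refl _⟩
      rw [div_le_div_iff₀ (by linarith) hp]
      linarith
  · intro A B hA hB
    have h := hsum (A.subtype (· ∈ S)) (B.subtype (· ∈ S))
    rw [hcard] at h
    convert h using 2
    rw [← Finset.sum_subtype_of_mem (p := (· ∈ S)) (s := A) _ (fun x hx => hA hx)]
    refine Finset.sum_congr rfl fun a _ => ?_
    rw [← Finset.sum_subtype_of_mem (p := (· ∈ S)) (s := B) _ (fun x hx => hB hx)]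
    refine Finset.sum_congr rfl fun b _ => ?_
    have hab : (a : V) ∈ S ∧ (b : V) ∈ S := ⟨a.2, b.2⟩
    beta_reduce
    rw [dif_pos hab]
    rfl

end Pool.Agent.Helper36.SNReg
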